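import Pool.Agent.H85.RQ.TRA

/-!
# (CLI) Clifford
-/

set_option autoImplicit false

namespace Pool.Agent.H85.RQ

open Pool.Agent.H95.RQ Pool.Agent.H28.RC

section cli

variable {G : Type} [Group G] [Finite G] {V : Type} [AddCommGroup V] [Module ℂ V]
  [FiniteDimensional ℂ V]

lemma rho_semisimple (ρ : Representation ℂ G V) (g : G) :
    Module.End.IsSemisimple (ρ g) := by
  have hn : Nat.card G ≠ 0 := Nat.card_pos.ne'
  refine Module.End.isSemisimple_of_squarefree_aeval_eq_zero
    (p := Polynomial.X ^ (Nat.card G) - Polynomial.C (1 : ℂ)) ?_ ?_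
  · refine (Polynomial.separable_X_pow_sub_C (1 : ℂ) ?_ one_ne_zero).squarefree
    exact_mod_cast hn
  · rw [map_sub, map_pow, Polynomial.aeval_X, Polynomial.aeval_C, map_one, ← map_pow,
      pow_card_eq_one', map_one, sub_self]

/-- a simultaneous eigenvector of a commuting family -/
lemma exists_eigen [Nontrivial V] (ρ : Representation ℂ G V) (A : Subgroup G)
    (hcomm : ∀ a ∈ A, ∀ b ∈ A, ρ a * ρ b = ρ b * ρ a) :
    ∃ (θ : A → ℂ) (v : V), v ≠ 0 ∧ ∀ a : A, ρ a v = θ a • v := by
  have h1 := Module.End.iSup_iInf_maxGenEigenspace_eq_top_of_iSup_maxGenEigenspace_eq_top_of_commute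
    (fun a : A => ρ (a : G)) (fun a b _ => hcomm a a.2 b b.2)
    (fun a => Module.End.iSup_maxGenEigenspace_eq_top _)
  by_contra hcon
  push Not at hcon
  have h2 : ∀ χ : A → ℂ, (⨅ a : A, Module.End.maxGenEigenspace (ρ (a : G)) (χ a)) = ⊥ := by
    intro χ
    rw [eq_bot_iff]
    intro v hv
    by_contra hv0
    obtain ⟨a, ha⟩ := hcon χ v hv0
    apply ha
    rw [Submodule.mem_iInf] at hv
    have h3 := hv a
    rw [(rho_semisimple ρ (a : G)).isFinitelySemisimple.maxGenEigenspace_eq_eigenspace,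
      Module.End.mem_eigenspace_iff] at h3
    exact h3
  simp only [h2, iSup_bot] at h1
  exact bot_ne_top h1

end cli

/-- (CLI) Clifford. -/
theorem pf_CLI : T_CLI := by
  classical
  intro G _ _ V _ _ _ ρ A hA hirr hcomm hns
  have := Fintype.ofFinite G
  have := Fintype.ofFinite A
  have hV : Nontrivial V := by
    by_contra h
    rw [not_nontrivial_iff_subsingleton] at h
    obtain ⟨a, -, ha⟩ := hns
    exact ha 0 (Subsingleton.elim _ _)
  obtain ⟨θ, w0, hw0, hθ⟩ := exists_eigen ρ A hcomm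
  have hρmul : ∀ (x y : G) (v : V), ρ (x * y) v = ρ x (ρ y v) := by
    intro x y v
    rw [map_mul]
    rfl
  -- the character
  have hθ1 : θ 1 = 1 := by
    have h1 := hθ 1
    have h2 : ρ ((1 : A) : G) w0 = w0 := by
      rw [Subgroup.coe_one, map_one]
      rfl
    rw [h2] at h1
    have h3 : (θ 1 - 1) • w0 = 0 := by rw [sub_smul, ← h1, one_smul, sub_self]
    rcases smul_eq_zero.1 h3 with h4 | h4
    · exact sub_eq_zero.1 h4
    · exact absurd h4 hw0
  have hθm : ∀ a b, θ (a * b) = θ a * θ b := by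
    intro a b
    have h1 := hθ (a * b)
    rw [Subgroup.coe_mul, hρmul, hθ b, map_smul, hθ a, smul_smul] at h1
    have h3 : (θ (a * b) - θ a * θ b) • w0 = 0 := by
      rw [sub_smul, ← h1, mul_comm (θ a), sub_self]
    rcases smul_eq_zero.1 h3 with h4 | h4
    · exact sub_eq_zero.1 h4
    · exact absurd h4 hw0
  have hθi : ∀ a, θ a⁻¹ * θ a = 1 := by
    intro a
    rw [← hθm, inv_mul_cancel, hθ1]
  let W : Submodule ℂ V :=
    { carrier := {v | ∀ a : A, ρ a v = θ a • v}
      add_mem' := by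
        intro v w hv hw a
        rw [map_add, hv a, hw a, smul_add]
      zero_mem' := by
        intro a
        rw [map_zero, smul_zero]
      smul_mem' := by
        intro c v hv a
        rw [map_smul, hv a, smul_comm] }
  have hWmem : ∀ v, v ∈ W ↔ ∀ a : A, ρ a v = θ a • v := fun v => Iff.rfl
  have hn : (Nat.card A : ℂ) ≠ 0 := Nat.cast_ne_zero.2 Nat.card_pos.ne'
  -- the projector
  let e : Module.End ℂ V := (Nat.card A : ℂ)⁻¹ • ∑ a : A, θ a⁻¹ • ρ (a : G)
  have he : ∀ v, e v = (Nat.card A : ℂ)⁻¹ • ∑ a : A, θ a⁻¹ • ρ (a : G) v := by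
    intro v
    show ((Nat.card A : ℂ)⁻¹ • ∑ a : A, θ a⁻¹ • ρ (a : G)) v = _
    rw [LinearMap.smul_apply, LinearMap.sum_apply]
    rfl
  have he1 : ∀ w ∈ W, e w = w := by
    intro w hw
    rw [he]
    have h1 : ∀ a : A, θ a⁻¹ • ρ (a : G) w = w := by
      intro a
      rw [hw a, smul_smul, hθi, one_smul]
    rw [Finset.sum_congr rfl fun a _ => h1 a, Finset.sum_const, Finset.card_univ,
      ← Nat.card_eq_fintype_card, ← Nat.cast_smul_eq_nsmul ℂ, smul_smul, inv_mul_cancel₀ hn,
      one_smul]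
  have he2 : ∀ v, e v ∈ W := by
    intro v b
    rw [he, map_smul, map_sum, smul_comm (θ b)]
    congr 1
    rw [Finset.smul_sum, ← Equiv.sum_comp (Equiv.mulLeft b)
      (fun a : A => θ b • θ a⁻¹ • ρ (a : G) v)]
    refine Finset.sum_congr rfl fun a _ => ?_
    show ρ (b : G) (θ a⁻¹ • ρ (a : G) v) = θ b • θ (b * a)⁻¹ • ρ ((b * a : A) : G) v
    rw [map_smul, Subgroup.coe_mul, hρmul, smul_smul, mul_inv_rev, hθm, mul_comm (θ b),
      mul_assoc, hθi, mul_one]
  -- the stabiliser
  let H : Subgroup G :=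
    { carrier := {g | ρ g * e = e * ρ g}
      mul_mem' := by
        intro g h hg hh
        show ρ (g * h) * e = e * ρ (g * h)
        have hg' : ρ g * e = e * ρ g := hg
        have hh' : ρ h * e = e * ρ h := hh
        rw [map_mul, mul_assoc, hh', ← mul_assoc, hg', mul_assoc]
      one_mem' := by
        show ρ 1 * e = e * ρ 1
        rw [map_one, one_mul, mul_one]
      inv_mem' := by
        intro g hg
        show ρ g⁻¹ * e = e * ρ g⁻¹
        have hg' : ρ g * e = e * ρ g := hg
        have h1 : ρ g⁻¹ * ρ g = 1 := by rw [← map_mul, inv_mul_cancel, map_one]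
        have h2 : ρ g * ρ g⁻¹ = 1 := by rw [← map_mul, mul_inv_cancel, map_one]
        calc ρ g⁻¹ * e = ρ g⁻¹ * e * (ρ g * ρ g⁻¹) := by rw [h2, mul_one]
          _ = ρ g⁻¹ * (e * ρ g) * ρ g⁻¹ := by simp only [mul_assoc]
          _ = ρ g⁻¹ * (ρ g * e) * ρ g⁻¹ := by rw [hg']
          _ = (ρ g⁻¹ * ρ g) * e * ρ g⁻¹ := by simp only [mul_assoc]
          _ = e * ρ g⁻¹ := by rw [h1, one_mul] }
  have hHmem : ∀ g, g ∈ H ↔ ρ g * e = e * ρ g := fun g => Iff.rfl
  -- off the stabiliser
  have hoff : ∀ g, g ∉ H → ∀ w ∈ W, e (ρ g w) = 0 := by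
    intro g hg w hw
    by_contra hne
    apply hg
    set u := ρ g w with hu
    have h1 : ∀ a : A, ρ (a : G) u = θ (MulAut.conjNormal g⁻¹ a) • u := by
      intro a
      have h2 : (a : G) * g = g * ((MulAut.conjNormal g⁻¹ a : A) : G) := by
        rw [MulAut.conjNormal_apply]
        group
      rw [hu, ← hρmul, h2, hρmul, hw _, map_smul]
    have h3 : e u = ((Nat.card A : ℂ)⁻¹ * ∑ a : A, θ a⁻¹ * θ (MulAut.conjNormal g⁻¹ a)) • u := by
      rw [he, mul_smul, Finset.sum_smul]
      congr 1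
      refine Finset.sum_congr rfl fun a _ => ?_
      rw [h1, smul_smul]
    set c := (Nat.card A : ℂ)⁻¹ * ∑ a : A, θ a⁻¹ * θ (MulAut.conjNormal g⁻¹ a) with hc
    have hc0 : c ≠ 0 := by
      intro h0
      rw [h0, zero_smul] at h3
      exact hne h3
    have hu0 : u ≠ 0 := by
      intro h0
      rw [h0, map_zero] at hne
      exact hne rfl
    have huW : u ∈ W := by
      have h4 : u = c⁻¹ • e u := by rw [h3, smul_smul, inv_mul_cancel₀ hc0, one_smul]
      rw [h4]
      exact W.smul_mem _ (he2 u)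
    have h5 : ∀ a : A, θ (MulAut.conjNormal g⁻¹ a) = θ a := by
      intro a
      have h6 := h1 a
      rw [huW a] at h6
      have h7 : (θ a - θ (MulAut.conjNormal g⁻¹ a)) • u = 0 := by rw [sub_smul, h6, sub_self]
      rcases smul_eq_zero.1 h7 with h8 | h8
      · exact (sub_eq_zero.1 h8).symm
      · exact absurd h8 hu0
    rw [hHmem]
    ext v
    show ρ g (e v) = e (ρ g v)
    rw [he, he, map_smul, map_sum]
    congr 1
    rw [← Equiv.sum_comp (MulAut.conjNormal g⁻¹ : MulAut A).toEquiv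
      (fun a : A => ρ g (θ a⁻¹ • ρ (a : G) v))]
    refine Finset.sum_congr rfl fun a _ => ?_
    show ρ g (θ (MulAut.conjNormal g⁻¹ a)⁻¹ • ρ ((MulAut.conjNormal g⁻¹ a : A) : G) v) =
      θ a⁻¹ • ρ (a : G) (ρ g v)
    have h9 : (a : G) * g = g * ((MulAut.conjNormal g⁻¹ a : A) : G) := by
      rw [MulAut.conjNormal_apply]
      group
    rw [map_smul, ← hρmul, ← hρmul, ← h9, ← map_inv, h5]
  -- stability of `W`
  have hst : ∀ h ∈ H, ∀ w ∈ W, ρ h w ∈ W := by
    intro h hh w hw
    have h1 : ρ h (e w) = e (ρ h w) := LinearMap.congr_fun ((hHmem h).1 hh) w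
    rw [he1 w hw] at h1
    rw [h1]
    exact he2 _
  have hW0 : W ≠ ⊥ := by
    intro h
    have h1 : w0 ∈ W := hθ
    rw [h, Submodule.mem_bot] at h1
    exact hw0 h1
  let τ : Representation ℂ H W :=
    { toFun := fun h => (ρ (h : G)).restrict (hst h h.2)
      map_one' := by
        ext w
        show ρ ((1 : H) : G) (w : V) = w
        rw [Subgroup.coe_one, map_one]
        rfl
      map_mul' := by
        intro x y
        ext w
        show ρ ((x * y : H) : G) (w : V) = ρ (x : G) (ρ (y : G) (w : V))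
        rw [Subgroup.coe_mul, hρmul] }
  refine ⟨H, W, τ, ?_, ?_⟩
  · intro hH
    have h1 : ∀ g, ∀ x ∈ W, ρ g x ∈ W := by
      intro g x hx
      refine hst g ?_ x hx
      rw [hH]
      exact Subgroup.mem_top g
    rcases hirr W h1 with h2 | h2
    · exact hW0 h2
    · obtain ⟨a, ha, hac⟩ := hns
      apply hac (θ ⟨a, ha⟩)
      ext v
      have h3 : v ∈ W := by
        rw [h2]
        exact Submodule.mem_top
      exact h3 ⟨a, ha⟩
  · -- the sum of the conjugates of the projector
    have hQ : ∑ y : G, ρ y * e * ρ y⁻¹ = (Nat.card H : ℂ) • (1 : Module.End ℂ V) := by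
      have hQg : ∀ g : G, (∑ y : G, ρ y * e * ρ y⁻¹) * ρ g = ρ g * ∑ y : G, ρ y * e * ρ y⁻¹ := by
        intro g
        rw [Finset.sum_mul, Finset.mul_sum, ← Equiv.sum_comp (Equiv.mulLeft g)
          (fun y => ρ y * e * ρ y⁻¹ * ρ g)]
        refine Finset.sum_congr rfl fun y _ => ?_
        show ρ (g * y) * e * ρ (g * y)⁻¹ * ρ g = ρ g * (ρ y * e * ρ y⁻¹)
        have h1 : ρ (g * y)⁻¹ * ρ g = ρ y⁻¹ := by
          rw [← map_mul]
          congr 1
          group
        rw [mul_assoc (ρ (g * y) * e), h1, map_mul, mul_assoc, mul_assoc, mul_assoc]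
      let T : Submodule ℂ V := LinearMap.ker
        ((∑ y : G, ρ y * e * ρ y⁻¹) - (Nat.card H : ℂ) • (1 : Module.End ℂ V))
      have hT : ∀ v, v ∈ T ↔ (∑ y : G, ρ y * e * ρ y⁻¹) v = (Nat.card H : ℂ) • v := by
        intro v
        rw [LinearMap.mem_ker, LinearMap.sub_apply, sub_eq_zero]
        rfl
      have hTinv : ∀ g, ∀ x ∈ T, ρ g x ∈ T := by
        intro g x hx
        rw [hT] at hx ⊢
        have h1 : (∑ y : G, ρ y * e * ρ y⁻¹) (ρ g x) = ρ g ((∑ y : G, ρ y * e * ρ y⁻¹) x) :=
          LinearMap.congr_fun (hQg g) x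
        rw [h1, hx, map_smul]
      have hWT : ∀ w ∈ W, w ∈ T := by
        intro w hw
        rw [hT, LinearMap.sum_apply]
        have h1 : ∀ y : G, (ρ y * e * ρ y⁻¹) w = if y ∈ H then w else 0 := by
          intro y
          show ρ y (e (ρ y⁻¹ w)) = _
          split_ifs with hy
          · have h2 := hst y⁻¹ (H.inv_mem hy) w hw
            rw [he1 _ h2, ← hρmul, mul_inv_cancel, map_one]
            rfl
          · have h2 : y⁻¹ ∉ H := fun h => hy (by
              have h3 := H.inv_mem h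
              rwa [inv_inv] at h3)
            rw [hoff _ h2 w hw, map_zero]
        rw [Finset.sum_congr rfl fun y _ => h1 y, ← Finset.sum_filter, Finset.sum_const,
          ← Nat.cast_smul_eq_nsmul ℂ]
        congr 2
        rw [Nat.card_eq_fintype_card, Fintype.card_subtype]
      have hTtop : T = ⊤ := by
        rcases hirr T hTinv with h1 | h1
        · exfalso
          apply hW0
          rw [eq_bot_iff, ← h1]
          exact hWT
        · exact h1
      ext v
      have h1 : v ∈ T := by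
        rw [hTtop]
        exact Submodule.mem_top
      exact (hT v).1 h1
    -- traces
    have htr1 : ∀ x (hx : x ∈ H), LinearMap.trace ℂ V (ρ x * e) =
        LinearMap.trace ℂ W (τ ⟨x, hx⟩) := by
      intro x hx
      have h1 : ρ x * e = (ρ x ∘ₗ W.subtype) ∘ₗ (e.codRestrict W he2) := by
        ext v
        rfl
      have h2 : τ ⟨x, hx⟩ = (e.codRestrict W he2) ∘ₗ (ρ x ∘ₗ W.subtype) := by
        ext w
        show ρ x (w : V) = e (ρ x (w : V))
        rw [he1 _ (hst x hx w w.2)]
      rw [h1, h2, LinearMap.trace_comp_comm']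
    have htr2 : ∀ x, x ∉ H → LinearMap.trace ℂ V (ρ x * e) = 0 := by
      intro x hx
      have h1 : e * e = e := by
        ext v
        exact he1 _ (he2 v)
      have h2 : e * ρ x * e = 0 := by
        ext v
        exact hoff x hx _ (he2 v)
      calc LinearMap.trace ℂ V (ρ x * e) = LinearMap.trace ℂ V (ρ x * e * e) := by
            rw [mul_assoc, h1]
        _ = LinearMap.trace ℂ V (e * (ρ x * e)) := LinearMap.trace_mul_comm ℂ _ _
        _ = 0 := by rw [← mul_assoc, h2, map_zero]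
    have htr : ∀ x, LinearMap.trace ℂ V (ρ x * e) =
        ez H (fun h => LinearMap.trace ℂ W (τ h)) x := by
      intro x
      by_cases hx : x ∈ H
      · rw [ez_mem _ hx, htr1 x hx]
      · rw [ez_not_mem _ hx, htr2 x hx]
    have hcf : CF H fun h => LinearMap.trace ℂ W (τ h) := by
      intro h x
      show LinearMap.trace ℂ W (τ (h⁻¹ * x * h)) = LinearMap.trace ℂ W (τ x)
      rw [map_mul, LinearMap.trace_mul_comm, ← map_mul, ← mul_assoc, mul_inv_cancel, one_mul]
    intro g
    rw [indf_avg hcf, finsum_eq_sum_of_fintype]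
    have hH0 : (Nat.card H : ℂ) ≠ 0 := Nat.cast_ne_zero.2 Nat.card_pos.ne'
    rw [eq_inv_mul_iff_mul_eq₀ hH0]
    have h1 : (Nat.card H : ℂ) * LinearMap.trace ℂ V (ρ g) =
        LinearMap.trace ℂ V (ρ g * ((Nat.card H : ℂ) • (1 : Module.End ℂ V))) := by
      rw [mul_smul_comm, mul_one, map_smul, smul_eq_mul]
    rw [h1, ← hQ, Finset.mul_sum, map_sum]
    refine Finset.sum_congr rfl fun y _ => ?_
    rw [← htr]
    have h2 : ρ g * (ρ y * e * ρ y⁻¹) = (ρ g * ρ y * e) * ρ y⁻¹ := by simp only [mul_assoc]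
    rw [h2, LinearMap.trace_mul_comm, ← mul_assoc, ← mul_assoc, ← map_mul, ← map_mul]

end Pool.Agent.H85.RQ
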