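import Pool.Agent.H95.RQ.Targets2

/-!
# (FIX) finiteness of the index of the `n`-th powers
-/

set_option autoImplicit false

open NumberField NumberField.InfinitePlace IsDedekindDomain

namespace Pool.Agent.H85.RQ

open Pool.Agent.H95.RQ Pool.Agent.H28.RC

section pos

variable (K : Type) [Field K] [NumberField K]

/-- the signs at the real places -/
noncomputable def sgnHom : Kˣ →* (RP K → SignType) where
  toFun x v := SignType.sign (re v (x : K))
  map_one' := by
    funext v
    show SignType.sign (re v ((1 : Kˣ) : K)) = 1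
    simp [re]
  map_mul' x y := by
    funext v
    show SignType.sign (re v ((x * y : Kˣ) : K)) = SignType.sign (re v (x : K)) *
      SignType.sign (re v (y : K))
    rw [← sign_mul]
    congr 1
    simp [re]

lemma posR_index : (PosR (Set.univ : Set (RP K))).index ≠ 0 := by
  have h1 : (sgnHom K).toHomUnits.ker ≤ PosR (Set.univ : Set (RP K)) := by
    intro x hx v _
    rw [MonoidHom.mem_ker] at hx
    have h2 : (((sgnHom K).toHomUnits x : (RP K → SignType)ˣ) : RP K → SignType) v = 1 := by
      rw [hx]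
      rfl
    have h3 : SignType.sign (re v (x : K)) = 1 := h2
    exact sign_eq_one_iff.1 h3
  have h2 : (sgnHom K).toHomUnits.ker.index ≠ 0 := by
    rw [Subgroup.index_ker]
    exact Nat.card_pos.ne'
  intro h3
  apply h2
  have h4 := Subgroup.index_dvd_of_le h1
  rw [h3] at h4
  exact zero_dvd_iff.1 h4

end pos

lemma val_of_Uk {K : Type} [Field K] [NumberField K] {P : HeightOneSpectrum (𝓞 K)} {k : ℕ} {x : Kˣ}
    (hx : x ∈ Uk P k) : P.valuation K (x : K) = 1 := by
  have hx' : P.valuation K ((x : K) - 1) ≤ WithZero.exp (-(k + 1 : ℤ)) := hx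
  have h1 : (WithZero.exp (-(k + 1 : ℤ))) < 1 := by
    rw [← WithZero.exp_zero, WithZero.exp_lt_exp]; omega
  have := Valuation.map_one_add_of_lt (v := P.valuation K) (hx'.trans_lt h1)
  simpa using this

/-- (FIX) finiteness of the index of the `n`-th powers. -/
theorem pf_FIX (h_FUP : T_FUP) (h_WAS : T_WAS) : T_FIX := by
  classical
  intro K _ _ T k n hn
  have hn0 : NeZero n := ⟨by omega⟩
  have hv0 : ∀ (P : HeightOneSpectrum (𝓞 K)) (x : Kˣ), P.valuation K (x : K) ≠ 0 := by
    intro P x
    rw [Valuation.ne_zero_iff]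
    exact x.ne_zero
  -- the valuations modulo `n`
  let Φ : Kˣ →* Multiplicative (T → ZMod n) := MonoidHom.mk' (fun x =>
    Multiplicative.ofAdd fun P : T => ((WithZero.log (P.1.valuation K (x : K)) : ℤ) : ZMod n))
    (by
      intro a b
      apply Multiplicative.toAdd.injective
      funext P
      show ((WithZero.log (P.1.valuation K ((a * b : Kˣ) : K)) : ℤ) : ZMod n) =
        ((WithZero.log (P.1.valuation K (a : K)) : ℤ) : ZMod n) +
        ((WithZero.log (P.1.valuation K (b : K)) : ℤ) : ZMod n)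
      rw [Units.val_mul, map_mul, WithZero.log_mul (hv0 _ _) (hv0 _ _), Int.cast_add])
  have hfin : Finite (Multiplicative (T → ZMod n)) := inferInstanceAs (Finite (T → ZMod n))
  have hΦ : Φ.ker.index ≠ 0 := by
    rw [Subgroup.index_ker]
    exact Nat.card_pos.ne'
  -- uniformizers
  have hun : ∀ P : HeightOneSpectrum (𝓞 K), ∃ π : Kˣ, P.valuation K (π : K) =
      WithZero.exp (-1 : ℤ) := by
    intro P
    obtain ⟨π, hπ⟩ := P.valuation_exists_uniformizer K
    have h0 : π ≠ 0 := by
      rintro rfl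
      rw [map_zero] at hπ
      exact WithZero.exp_ne_zero hπ.symm
    exact ⟨Units.mk0 π h0, hπ⟩
  choose π hπ using hun
  have hker : Φ.ker ≤ (powMonoidHom n : Kˣ →* Kˣ).range ⊔ UU T := by
    intro x hx
    have h1 : ∀ P : HeightOneSpectrum (𝓞 K), ∃ m : ℤ, P ∈ T →
        WithZero.log (P.valuation K (x : K)) = n * m := by
      intro P
      by_cases hP : P ∈ T
      · rw [MonoidHom.mem_ker] at hx
        have h2 : (Multiplicative.toAdd (Φ x)) ⟨P, hP⟩ = 0 := by
          rw [hx]
          rfl
        have h3 : ((WithZero.log (P.valuation K (x : K)) : ℤ) : ZMod n) = 0 := h2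
        rw [ZMod.intCast_zmod_eq_zero_iff_dvd] at h3
        obtain ⟨m, hm⟩ := h3
        exact ⟨m, fun _ => hm⟩
      · exact ⟨0, fun h => absurd h hP⟩
    choose m hm using h1
    obtain ⟨f, hf, -⟩ := h_WAS K T k (fun P => π P ^ (-(m P))) ∅
    have h2 : x = f ^ n * (x / f ^ n) := (mul_div_cancel (f ^ n) x).symm
    rw [h2]
    refine Subgroup.mul_mem_sup ⟨f, rfl⟩ ?_
    intro P hP
    have h3 := val_of_Uk (hf P hP)
    have h4 : P.valuation K (f : K) = WithZero.exp (m P) := by
      rw [Units.val_div_eq_div_val, map_div₀, div_eq_one_iff_eq (hv0 _ _)] at h3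
      rw [h3, Units.val_zpow_eq_zpow_val, map_zpow₀, hπ, ← WithZero.exp_zsmul]
      congr 1
      simp
    have h5 : P.valuation K (x : K) = WithZero.exp (n * m P) := by
      rw [← hm P hP, WithZero.exp_log (hv0 _ _)]
    show P.valuation K ((x / f ^ n : Kˣ) : K) = 1
    rw [Units.val_div_eq_div_val, map_div₀, Units.val_pow_eq_pow_val, map_pow, h4, h5,
      ← WithZero.exp_nsmul, nsmul_eq_mul, div_self WithZero.exp_ne_zero]
  -- the index of the sum with the units at `T`
  have hA : ((powMonoidHom n : Kˣ →* Kˣ).range ⊔ UU T).index ≠ 0 := by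
    intro h3
    apply hΦ
    have h4 := Subgroup.index_dvd_of_le hker
    rw [h3] at h4
    exact zero_dvd_iff.1 h4
  have hB : (UT T k).relIndex (UU T) ≠ 0 := by
    refine Subgroup.relIndex_inf_ne_zero (h_FUP K T k) ?_
    intro h
    exact posR_index K (Subgroup.index_eq_zero_of_relIndex_eq_zero h)
  set N := (powMonoidHom n : Kˣ →* Kˣ).range with hN
  have hC : (N ⊔ UT T k).relIndex (UU T) ≠ 0 := by
    intro h
    exact hB (Subgroup.relIndex_eq_zero_of_le_left le_sup_right h)
  have hD : (N ⊔ UT T k).relIndex (UU T ⊔ (N ⊔ UT T k)) ≠ 0 := by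
    rw [Subgroup.relIndex_sup_right]
    exact hC
  have hE : (UU T ⊔ (N ⊔ UT T k)).index ≠ 0 := by
    intro h3
    apply hA
    have h5 : N ⊔ UU T ≤ UU T ⊔ (N ⊔ UT T k) :=
      sup_le (le_sup_left.trans le_sup_right) le_sup_left
    have h4 := Subgroup.index_dvd_of_le h5
    rw [h3] at h4
    exact zero_dvd_iff.1 h4
  rw [← Subgroup.relIndex_mul_index (le_sup_right : N ⊔ UT T k ≤ UU T ⊔ (N ⊔ UT T k))]
  exact mul_ne_zero hD hE

end Pool.Agent.H85.RQ
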