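import Pool.Agent.H95.RQ.Targets1

/-!
# (TRA) transitivity of induction
-/

set_option autoImplicit false

namespace Pool.Agent.H85.RQ

open Pool.Agent.H95.RQ Pool.Agent.H28.RC

section general

variable {G : Type} [Group G]

/-- `G` as the product of `G / H` and `H` -/
noncomputable def qe (H : Subgroup G) : (G ⧸ H) × H ≃ G where
  toFun p := p.1.out * p.2
  invFun y := ((QuotientGroup.mk y : G ⧸ H), ⟨(QuotientGroup.mk y : G ⧸ H).out⁻¹ * y,
    QuotientGroup.eq.1 (QuotientGroup.out_eq' _)⟩)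
  left_inv p := by
    obtain ⟨x, h⟩ := p
    have h1 : (QuotientGroup.mk (x.out * (h : G)) : G ⧸ H) = x := by
      rw [QuotientGroup.mk_mul_of_mem _ h.2, QuotientGroup.out_eq']
    apply Prod.ext
    · exact h1
    · apply Subtype.ext
      show (QuotientGroup.mk (x.out * (h : G)) : G ⧸ H).out⁻¹ * (x.out * (h : G)) = h
      rw [h1]
      group
  right_inv y := by
    show (QuotientGroup.mk y : G ⧸ H).out * ((QuotientGroup.mk y : G ⧸ H).out⁻¹ * y) = y
    group

lemma sum_quot [Finite G] (H : Subgroup G) (φ : G → ℂ) (hφ : ∀ y, ∀ h ∈ H, φ (y * h) = φ y) :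
    ∑ᶠ y, φ y = (Nat.card H : ℂ) * ∑ᶠ x : G ⧸ H, φ x.out := by
  classical
  have := Fintype.ofFinite G
  have := Fintype.ofFinite H
  have := Fintype.ofFinite (G ⧸ H)
  rw [finsum_eq_sum_of_fintype, finsum_eq_sum_of_fintype, ← Equiv.sum_comp (qe H),
    Fintype.sum_prod_type, Finset.mul_sum]
  refine Finset.sum_congr rfl fun x _ => ?_
  have h1 : ∀ h : H, φ (qe H (x, h)) = φ x.out := fun h => hφ _ _ h.2
  rw [Finset.sum_congr rfl fun h _ => h1 h, Finset.sum_const, Finset.card_univ,
    Nat.card_eq_fintype_card, nsmul_eq_mul]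

open scoped Classical in
/-- extension by zero -/
noncomputable def ez (H : Subgroup G) (f : H → ℂ) (x : G) : ℂ :=
  if h : x ∈ H then f ⟨x, h⟩ else 0

lemma ez_mem {H : Subgroup G} (f : H → ℂ) {x : G} (h : x ∈ H) : ez H f x = f ⟨x, h⟩ := dif_pos h

lemma ez_not_mem {H : Subgroup G} (f : H → ℂ) {x : G} (h : x ∉ H) : ez H f x = 0 := dif_neg h

lemma indf_eq (H : Subgroup G) (f : H → ℂ) (g : G) :
    indf H f g = ∑ᶠ x : G ⧸ H, ez H f (x.out⁻¹ * g * x.out) := rfl

lemma indc_eq (H : Subgroup G) (lam : H →* ℂˣ) :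
    indc H lam = indf H fun h => ((lam h : ℂˣ) : ℂ) := rfl

/-- class functions -/
def CF (H : Subgroup G) (f : H → ℂ) : Prop := ∀ h x : H, f (h⁻¹ * x * h) = f x

lemma ez_conj {H : Subgroup G} {f : H → ℂ} (hf : CF H f) (x : G) {h : G} (hh : h ∈ H) :
    ez H f (h⁻¹ * x * h) = ez H f x := by
  by_cases hx : x ∈ H
  · have h1 : h⁻¹ * x * h ∈ H := H.mul_mem (H.mul_mem (H.inv_mem hh) hx) hh
    rw [ez_mem f h1, ez_mem f hx]
    exact hf ⟨h, hh⟩ ⟨x, hx⟩
  · have h1 : h⁻¹ * x * h ∉ H := by
      intro h1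
      apply hx
      have h2 := H.mul_mem (H.mul_mem hh h1) (H.inv_mem hh)
      have h3 : h * (h⁻¹ * x * h) * h⁻¹ = x := by group
      rwa [h3] at h2
    rw [ez_not_mem f h1, ez_not_mem f hx]

/-- the induced function as an average over the group -/
lemma indf_avg [Finite G] {H : Subgroup G} {f : H → ℂ} (hf : CF H f) (g : G) :
    indf H f g = (Nat.card H : ℂ)⁻¹ * ∑ᶠ y, ez H f (y⁻¹ * g * y) := by
  rw [sum_quot H (fun y => ez H f (y⁻¹ * g * y)), indf_eq, inv_mul_cancel_left₀]
  · exact Nat.cast_ne_zero.2 Nat.card_pos.ne'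
  · intro y h hh
    have h1 : (y * h)⁻¹ * g * (y * h) = h⁻¹ * (y⁻¹ * g * y) * h := by group
    rw [h1]
    exact ez_conj hf _ hh

lemma cf_lam {H : Subgroup G} (lam : H →* ℂˣ) : CF H fun h => ((lam h : ℂˣ) : ℂ) := by
  intro h x
  have h1 : lam (h⁻¹ * x * h) = lam x := by
    rw [map_mul, map_mul, map_inv, mul_comm _ (lam h), mul_inv_cancel_left]
  show ((lam (h⁻¹ * x * h) : ℂˣ) : ℂ) = _
  rw [h1]

lemma indf_conj [Finite G] {H : Subgroup G} {f : H → ℂ} (hf : CF H f) (h x : G) :
    indf H f (h⁻¹ * x * h) = indf H f x := by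
  rw [indf_avg hf, indf_avg hf]
  congr 1
  rw [← finsum_comp_equiv (Equiv.mulLeft h) (f := fun y => ez H f (y⁻¹ * x * y))]
  refine finsum_congr fun y => ?_
  congr 1
  show _ = (h * y)⁻¹ * x * (h * y)
  group

end general

/-- (TRA) transitivity of induction. -/
theorem pf_TRA : T_TRA := by
  classical
  intro G _ _ H f hf
  have := Fintype.ofFinite G
  have := Fintype.ofFinite H
  have key : ∀ (K : Subgroup H) (lam : K →* ℂˣ), ∃ (K' : Subgroup G) (lam' : K' →* ℂˣ),
      indf H (indc K lam) = indc K' lam' := by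
    intro K lam
    let e : K ≃* K.map H.subtype := K.equivMapOfInjective H.subtype H.subtype_injective
    refine ⟨K.map H.subtype, lam.comp e.symm.toMonoidHom, ?_⟩
    have hcf1 : CF H (indc K lam) := by
      intro h x
      rw [indc_eq]
      exact indf_conj (cf_lam lam) h x
    have hcf2 := cf_lam (lam.comp e.symm.toMonoidHom)
    set F' : (K.map H.subtype) → ℂ :=
      fun h => (((lam.comp e.symm.toMonoidHom) h : ℂˣ) : ℂ) with hF'
    set F : K → ℂ := fun h => ((lam h : ℂˣ) : ℂ) with hF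
    -- comparison of the extensions by zero
    have hez : ∀ z : H, ez (K.map H.subtype) F' (z : G) = ez K F z := by
      intro z
      by_cases hz : z ∈ K
      · have h1 : (z : G) ∈ K.map H.subtype := ⟨z, hz, rfl⟩
        rw [ez_mem _ h1, ez_mem _ hz]
        have h2 : e.symm ⟨(z : G), h1⟩ = ⟨z, hz⟩ := by
          rw [MulEquiv.symm_apply_eq]
          rfl
        show ((lam (e.symm ⟨(z : G), h1⟩) : ℂˣ) : ℂ) = _
        rw [h2]
      · have h1 : (z : G) ∉ K.map H.subtype := by
          rintro ⟨w, hw, hwz⟩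
          apply hz
          have h2 : w = z := Subtype.ext hwz
          rwa [← h2]
        rw [ez_not_mem _ h1, ez_not_mem _ hz]
    have hcard : (Nat.card (K.map H.subtype) : ℂ) = Nat.card K := by
      rw [Nat.card_congr e.toEquiv.symm]
    -- the inner function
    have hin : ∀ x : G, ez H (indc K lam) x =
        (Nat.card K : ℂ)⁻¹ * ∑ᶠ h : H, ez (K.map H.subtype) F' ((h : G)⁻¹ * x * h) := by
      intro x
      by_cases hx : x ∈ H
      · rw [ez_mem _ hx, indc_eq, indf_avg (cf_lam lam)]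
        congr 1
        refine finsum_congr fun h => ?_
        rw [← hez]
        rfl
      · rw [ez_not_mem _ hx]
        have h1 : ∀ h : H, ez (K.map H.subtype) F' ((h : G)⁻¹ * x * h) = 0 := by
          intro h
          apply ez_not_mem
          rintro ⟨w, -, hw⟩
          apply hx
          have h2 := H.mul_mem (H.mul_mem h.2 w.2) (H.inv_mem h.2)
          have h3 : (h : G) * (w : G) * (h : G)⁻¹ = x := by
            have h4 : (w : G) = (h : G)⁻¹ * x * h := hw
            rw [h4]
            group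
          rwa [h3] at h2
        simp [h1]
    funext g
    have e0 : indc (K.map H.subtype) (lam.comp e.symm.toMonoidHom) g =
        indf (K.map H.subtype) F' g := rfl
    rw [indf_avg hcf1, e0, indf_avg hcf2, hcard]
    have h1 : ∑ᶠ y, ez H (indc K lam) (y⁻¹ * g * y) =
        (Nat.card K : ℂ)⁻¹ * ((Nat.card H : ℂ) *
          ∑ᶠ y, ez (K.map H.subtype) F' (y⁻¹ * g * y)) := by
      rw [finsum_eq_sum_of_fintype, finsum_eq_sum_of_fintype, Finset.sum_congr rfl fun y _ =>
        hin (y⁻¹ * g * y), ← Finset.mul_sum]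
      congr 1
      simp only [finsum_eq_sum_of_fintype]
      rw [Finset.sum_comm]
      have h2 : ∀ h : H, ∑ y : G, ez (K.map H.subtype) F' ((h : G)⁻¹ * (y⁻¹ * g * y) * h) =
          ∑ y : G, ez (K.map H.subtype) F' (y⁻¹ * g * y) := by
        intro h
        rw [← Equiv.sum_comp (Equiv.mulRight (h : G))
          (fun y => ez (K.map H.subtype) F' (y⁻¹ * g * y))]
        refine Finset.sum_congr rfl fun y _ => ?_
        congr 1
        show _ = (y * (h : G))⁻¹ * g * (y * (h : G))
        group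
      rw [Finset.sum_congr rfl fun h _ => h2 h, Finset.sum_const, Finset.card_univ,
        Nat.card_eq_fintype_card, nsmul_eq_mul]
    rw [h1]
    have h3 : (Nat.card H : ℂ) ≠ 0 := Nat.cast_ne_zero.2 Nat.card_pos.ne'
    field_simp
  have hadd : ∀ f f' : H → ℂ, indf H (f + f') = indf H f + indf H f' := by
    intro f f'
    have := Fintype.ofFinite (G ⧸ H)
    funext g
    rw [Pi.add_apply, indf_eq, indf_eq, indf_eq, finsum_eq_sum_of_fintype,
      finsum_eq_sum_of_fintype, finsum_eq_sum_of_fintype, ← Finset.sum_add_distrib]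
    refine Finset.sum_congr rfl fun x _ => ?_
    unfold ez
    split_ifs
    · rfl
    · simp
  have hneg : ∀ f : H → ℂ, indf H (-f) = -indf H f := by
    intro f
    have := Fintype.ofFinite (G ⧸ H)
    funext g
    rw [Pi.neg_apply, indf_eq, indf_eq, finsum_eq_sum_of_fintype,
      finsum_eq_sum_of_fintype, ← Finset.sum_neg_distrib]
    refine Finset.sum_congr rfl fun x _ => ?_
    unfold ez
    split_ifs
    · rfl
    · simp
  have hzero : indf H (0 : H → ℂ) = 0 := by
    have h1 := hadd 0 0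
    rw [add_zero] at h1
    exact left_eq_add.1 h1
  refine AddSubgroup.closure_induction (p := fun f _ => indf H f ∈ Mo G) ?_ ?_ ?_ ?_ hf
  · rintro f ⟨K, lam, rfl⟩
    obtain ⟨K', lam', h⟩ := key K lam
    rw [h]
    exact AddSubgroup.subset_closure ⟨K', lam', rfl⟩
  · rw [hzero]
    exact (Mo G).zero_mem
  · intro f f' _ _ h1 h2
    rw [hadd]
    exact (Mo G).add_mem h1 h2
  · intro f _ h1
    rw [hneg]
    exact (Mo G).neg_mem h1

end Pool.Agent.H85.RQ
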