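import Pool.Agent.H95.RQ.Targets2

/-!
# (VSG) the groups `1 + P ^ j Λ`
-/

set_option autoImplicit false

open NumberField NumberField.InfinitePlace IsDedekindDomain

namespace Pool.Agent.H85.RQ

open Pool.Agent.H95.RQ Pool.Agent.H28.RC

/-- (VSG), from (LAM) only. -/
theorem vsg_of_LAM (h_LAM : T_LAM) : T_VSG := by
  classical
  intro F E _ _ _ _ _ _ P
  obtain ⟨hadd, hneg, hzero, hmono, hgal, ⟨c, hc0, hmul⟩, ⟨t, hbase⟩, -⟩ := h_LAM F E P
  refine ⟨max (max c 1) (1 - t), fun j hj => ?_⟩
  have hjc : c ≤ j := (le_max_left _ _).trans ((le_max_left _ _).trans hj)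
  have hjt : 1 - t ≤ j := (le_max_right _ _).trans hj
  have hfd : FiniteDimensional F E := Module.Finite.of_restrictScalars_finite ℚ F E
  -- the submonoid
  let S : Submonoid Eˣ :=
    { carrier := {x | InL P j ((x : E) - 1)}
      one_mem' := by
        show InL P j (((1 : Eˣ) : E) - 1)
        rw [Units.val_one, sub_self]
        exact hzero j
      mul_mem' := by
        intro x y hx hy
        have hx' : InL P j ((x : E) - 1) := hx
        have hy' : InL P j ((y : E) - 1) := hy
        show InL P j (((x * y : Eˣ) : E) - 1)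
        have h1 : ((x * y : Eˣ) : E) - 1 = (((x : E) - 1) + ((y : E) - 1)) +
            ((x : E) - 1) * ((y : E) - 1) := by
          push_cast
          ring
        rw [h1]
        refine hadd _ _ _ (hadd _ _ _ hx' hy') ?_
        exact hmono _ _ _ (by linarith) (hmul j j _ _ hx' hy') }
  have hS : ∀ x : Eˣ, x ∈ S ↔ InL P j ((x : E) - 1) := fun x => Iff.rfl
  have hg : ∀ (g : E ≃ₐ[F] E) (x : Eˣ), x ∈ S → Units.map (g : E →* E) x ∈ S := by
    intro g x hx
    rw [hS] at hx ⊢
    have h1 : ((Units.map (g : E →* E) x : Eˣ) : E) - 1 = g ((x : E) - 1) := by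
      rw [map_sub, map_one]
      rfl
    rw [h1]
    exact hgal j g _ hx
  have hinv : ∀ x ∈ S, x⁻¹ ∈ S := by
    intro x hx
    set a : Fˣ := Units.map (Algebra.norm F : E →* F) x with ha
    set N : Eˣ := Units.map (algebraMap F E : F →* E) a with hN
    set y : Eˣ := ∏ g ∈ (Finset.univ : Finset (E ≃ₐ[F] E)).erase 1, Units.map (g : E →* E) x
      with hy
    have hyS : y ∈ S := S.prod_mem fun g _ => hg g x hx
    have hxy : x * y = N := by
      have h1 : Units.map ((1 : E ≃ₐ[F] E) : E →* E) x *
          ∏ g ∈ (Finset.univ : Finset (E ≃ₐ[F] E)).erase 1, Units.map (g : E →* E) x =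
          ∏ g : E ≃ₐ[F] E, Units.map (g : E →* E) x :=
        Finset.mul_prod_erase Finset.univ (fun g : E ≃ₐ[F] E => Units.map (g : E →* E) x)
          (Finset.mem_univ 1)
      have h2 : Units.map ((1 : E ≃ₐ[F] E) : E →* E) x = x := by
        ext
        rfl
      rw [h2] at h1
      rw [hy, h1]
      ext
      rw [Units.coe_prod]
      exact (Algebra.norm_eq_prod_automorphisms F (x : E)).symm
    have hNS : N ∈ S := by
      rw [← hxy]
      exact S.mul_mem hx hyS
    have h3 : P.valuation F ((a : F) - 1) ≤ WithZero.exp (-(j + t)) := by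
      rw [hS] at hNS
      rw [← hbase]
      have h4 : ((N : Eˣ) : E) - 1 = algebraMap F E ((a : F) - 1) := by
        rw [map_sub, map_one]
        rfl
      rwa [h4] at hNS
    have h4 : P.valuation F ((a : F) - 1) < 1 := by
      refine h3.trans_lt ?_
      rw [← WithZero.exp_zero, WithZero.exp_lt_exp]
      linarith
    have h5 : P.valuation F (a : F) = 1 := by
      have h6 := Valuation.map_one_add_of_lt (v := P.valuation F) h4
      simpa using h6
    have h6 : P.valuation F ((a : F)⁻¹ - 1) ≤ WithZero.exp (-(j + t)) := by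
      have h7 : (a : F)⁻¹ - 1 = -((a : F)⁻¹ * ((a : F) - 1)) := by
        field_simp [a.ne_zero]
        ring
      rw [h7, Valuation.map_neg, map_mul, map_inv₀, h5, inv_one, one_mul]
      exact h3
    have h7 : N⁻¹ ∈ S := by
      rw [hS]
      rw [← hbase] at h6
      have h8 : ((N⁻¹ : Eˣ) : E) - 1 = algebraMap F E ((a : F)⁻¹ - 1) := by
        rw [map_sub, map_one, map_inv₀, Units.val_inv_eq_inv_val]
        rfl
      rwa [h8]
    have h8 : x⁻¹ = y * N⁻¹ := by
      rw [← hxy, mul_inv, ← mul_assoc, mul_comm y, mul_assoc, mul_inv_cancel, mul_one]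
    rw [h8]
    exact S.mul_mem hyS h7
  let S' : Subgroup Eˣ := { S with inv_mem' := fun {x} hx => hinv x hx }
  have h9 : VV E P j = S' := by
    show Subgroup.closure {x : Eˣ | InL P j ((x : E) - 1)} = S'
    exact Subgroup.closure_eq S'
  intro x
  rw [h9]
  rfl

/-- (VSG) the groups `1 + P ^ j Λ`. -/
theorem pf_VSG (h_LAM : T_LAM) (_ : T_NMN) : T_VSG := vsg_of_LAM h_LAM

end Pool.Agent.H85.RQ
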